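import Pool.Agent.BEN.StmtsB

/-!
# Squad BEN (MP_be01ff_an), row UNI: the uniform version for simple eigenvalues
-/

set_option autoImplicit false

namespace Pool.Agent.BEN.H39

open Set Filter Topology MeasureTheory
open scoped InnerProductSpace ENNReal
open Pool.Agent.BE01 Pool.Agent.BEL Pool.Agent.BEF Pool.Agent.BEH Pool.Agent.BEN

noncomputable section

theorem cos_int_pos (n : ℕ) (hn : Even n) :
    0 < ∫ ψ in (0 : ℝ)..(2 * Real.pi), Real.cos ψ ^ n := by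
  refine intervalIntegral.integral_pos (by positivity) (by fun_prop)
    (fun x _ => hn.pow_nonneg _) ⟨0, ⟨le_rfl, by positivity⟩, ?_⟩
  rw [Real.cos_zero, one_pow]
  exact one_pos

/-- powers in `X` -/
theorem e_pow {T : Type} [MeasurableSpace T] {μ : Measure T} {X : Type} [NormedCommRing X]
    [NormedAlgebra ℝ X] {W : Wx X (Lp ℝ 2 μ)} (hX : Xok W) (x : X) (n : ℕ) :
    W.e (x ^ n) =ᵐ[μ] fun z => (W.e x z) ^ n := by
  induction n with
  | zero =>
    rw [pow_zero]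
    filter_upwards [hX.one] with z hz
    rw [hz, pow_zero]
  | succ n ih =>
    rw [pow_succ]
    filter_upwards [ih, hX.mul (x ^ n) x] with z h1 h2
    rw [h2, h1, pow_succ]

/-- row UNI -/
theorem uni (wxc : WxcStmt) (mai : MaiStmt) (slo : SloStmt) (neo : NeoStmt) : UniStmt := by
  intro d Ω p B β hd hΩ hp hβ
  obtain ⟨C0, hC0, hW⟩ := wxc d Ω hd hΩ
  have hI : 0 < ∫ ψ in (0 : ℝ)..(2 * Real.pi), Real.cos ψ ^ (2 * p + 2) :=
    cos_int_pos _ ⟨p + 1, by ring⟩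
  obtain ⟨M, hM⟩ := mai d Ω p C0 (max B 1)
    (β * ∫ ψ in (0 : ℝ)..(2 * Real.pi), Real.cos ψ ^ (2 * p + 2)) hd hΩ hp hC0
    (lt_of_lt_of_le one_pos (le_max_right _ _)) (mul_pos hβ hI)
  refine ⟨M, ?_⟩
  intro Ω' hΩ' hsub a l φ ha hl hlB hφ1 hφB hβφ hEig hsimple hnr
  obtain ⟨X, iX1, iX2, W, Z, hX, hWk, hS⟩ := hW Ω' hΩ' hsub
  have hfin : IsFiniteMeasure (mu Ω') := by
    refine ⟨?_⟩
    unfold mu
    rw [Measure.restrict_apply_univ]
    exact hΩ'.2.1.measure_lt_top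
  have hB0 : 0 < B := lt_of_lt_of_le hl hlB
  obtain ⟨x, hx, hxn⟩ := hX.lift φ B hB0.le hφB
  obtain ⟨ω, hω⟩ : ∃ ω : ℝ, ω = Real.sqrt l := ⟨_, rfl⟩
  have hω0 : 0 < ω := by rw [hω]; exact Real.sqrt_pos.2 hl
  have hω2 : ω ^ 2 = l := by rw [hω]; exact Real.sq_sqrt hl.le
  have hωB : ω ≤ max B 1 := by
    have h1 : l ≤ (max B 1) ^ 2 := by
      have h2 : B ≤ max B 1 := le_max_left _ _
      have h3 : 1 ≤ max B 1 := le_max_right _ _
      nlinarith
    rw [hω]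
    exact Real.sqrt_le_iff.2 ⟨le_trans zero_le_one (le_max_right _ _), h1⟩
  have hSφ : φ = l • W.S φ := (hWk.eig l φ).1 hEig
  have hSx : (ω ^ 2) • W.SX x = x := by
    apply W.e_inj
    rw [map_smul, W.e_SX, hx, hω2]
    exact hSφ.symm
  have hn1 : ‖W.e x‖ = 1 := by rw [hx, hφ1]
  obtain ⟨hEvx, hSlx⟩ := slo (En d) (mu Ω') d M C0 ω X W x hd hX hS hWk.comp hω0 hn1 hSx
    (fun u hu => by
      rw [hx]
      apply hsimple u
      rw [hWk.eig l u, ← hω2]
      exact hu)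
    (fun n hn h3 hnM u hu => by
      apply hnr n hn h3 hnM u
      rw [hWk.eig, ← hω2]
      exact hu)
  have hin : β ≤ ⟪W.e (x ^ (2 * p + 1)), W.e x⟫_ℝ := by
    refine hβφ.trans (le_of_eq ?_)
    rw [L2.inner_def]
    refine integral_congr_ae ?_
    filter_upwards [e_pow hX x (2 * p + 1)] with z hz
    rw [hz, hx]
    simp only [RCLike.inner_apply, conj_trivial]
    ring
  have hD := (neo X (Lp ℝ 2 (mu Ω')) W p β x hin).2
  refine hM Ω' hΩ' hsub X W Z hX hWk hS 1 a ω (fun _ => x) le_rfl ha hω0 hωB ?_ hEvx hD hSlx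
  simp only [Finset.univ_unique, Finset.sum_const, Finset.card_singleton, one_smul]
  exact hxn.trans (le_max_left _ _)

end

end Pool.Agent.BEN.H39
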